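import Mathlib

/-!
# Interlacing for the matrix of the prime sums
-/

set_option autoImplicit false

namespace Pool.Agent.N785.AS

open Finset Polynomial

/-- the matrix -/
def M (n : ℕ) : Matrix (Fin n) (Fin n) ℤ := fun i j => if ((i : ℕ) + 1 + ((j : ℕ) + 1)).Prime then 1 else 0

/-- the real matrix -/
noncomputable def MR (n : ℕ) : Matrix (Fin n) (Fin n) ℝ := (M n).map (Int.cast : ℤ → ℝ)

/-- the signs -/
def sg (i : ℕ) : ℝ := (-1) ^ i

theorem MR_symm (n : ℕ) : (MR n).IsHermitian := by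
  ext i j
  simp only [MR, M, Matrix.conjTranspose_apply, Matrix.map_apply, star_trivial]
  rw [add_comm]

/-- the operator -/
noncomputable def T (n : ℕ) : EuclideanSpace ℝ (Fin n) →ₗ[ℝ] EuclideanSpace ℝ (Fin n) :=
  Matrix.toEuclideanLin (MR n)

theorem T_symm (n : ℕ) : (T n).IsSymmetric := Matrix.isSymmetric_toEuclideanLin_iff.2 (MR_symm n)

theorem fr (n : ℕ) : Module.finrank ℝ (EuclideanSpace ℝ (Fin n)) = n := finrank_euclideanSpace_fin

theorem T_charpoly (n : ℕ) : (T n).charpoly = (MR n).charpoly := by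
  rw [T, Matrix.toEuclideanLin_eq_toLin_orthonormal, Matrix.charpoly_toLin]

/-- the eigenvalues, decreasing -/
noncomputable def lam (n : ℕ) (i : Fin n) : ℝ := (T_symm n).eigenvalues (fr n) i

/-- the coefficients -/
noncomputable def co (n : ℕ) (i : Fin n) : EuclideanSpace ℝ (Fin n) →ₗ[ℝ] ℝ where
  toFun x := ((T_symm n).eigenvectorBasis (fr n)).repr x i
  map_add' x y := by simp
  map_smul' a x := by simp

theorem norm_co (n : ℕ) (x : EuclideanSpace ℝ (Fin n)) : ‖x‖ ^ 2 = ∑ i, co n i x ^ 2 := by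
  rw [← ((T_symm n).eigenvectorBasis (fr n)).repr.norm_map x, EuclideanSpace.norm_sq_eq]
  simp [co]

theorem inner_co (n : ℕ) (x : EuclideanSpace ℝ (Fin n)) :
    inner ℝ x (T n x) = ∑ i, lam n i * co n i x ^ 2 := by
  rw [← ((T_symm n).eigenvectorBasis (fr n)).repr.inner_map_map x]
  rw [PiLp.inner_apply]
  refine sum_congr rfl fun i _ => ?_
  rw [LinearMap.IsSymmetric.eigenvectorBasis_apply_self_apply]
  simp only [co, lam, LinearMap.coe_mk, AddHom.coe_mk, RCLike.inner_apply, RCLike.ofReal_real_eq_id, id_eq,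
    conj_trivial]
  ring

theorem upper (n : ℕ) (k : Fin n) (x : EuclideanSpace ℝ (Fin n)) (h : ∀ i, i < k → co n i x = 0) :
    inner ℝ x (T n x) ≤ lam n k * ‖x‖ ^ 2 := by
  rw [inner_co, norm_co, mul_sum]
  refine sum_le_sum fun i _ => ?_
  rcases lt_or_ge i k with hi | hi
  · rw [h i hi]
    simp
  · exact mul_le_mul_of_nonneg_right ((T_symm n).eigenvalues_antitone (fr n) hi) (sq_nonneg _)

theorem lower (n : ℕ) (k : Fin n) (x : EuclideanSpace ℝ (Fin n)) (h : ∀ i, k < i → co n i x = 0) :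
    lam n k * ‖x‖ ^ 2 ≤ inner ℝ x (T n x) := by
  rw [inner_co, norm_co, mul_sum]
  refine sum_le_sum fun i _ => ?_
  rcases lt_or_ge k i with hi | hi
  · rw [h i hi]
    simp
  · exact mul_le_mul_of_nonneg_right ((T_symm n).eigenvalues_antitone (fr n) hi) (sq_nonneg _)

/-- the reflection -/
noncomputable def S (n : ℕ) : EuclideanSpace ℝ (Fin n) →ₗ[ℝ] EuclideanSpace ℝ (Fin n) :=
  Matrix.toEuclideanLin (Matrix.diagonal fun i : Fin n => sg i)

theorem S_apply (n : ℕ) (x : EuclideanSpace ℝ (Fin n)) (i : Fin n) : S n x i = sg i * x i := by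
  simp [S, Matrix.toLpLin_apply, Matrix.mulVec_diagonal]

theorem sg_sq (i : ℕ) : sg i ^ 2 = 1 := by
  rw [sg, ← pow_mul, mul_comm, pow_mul]
  simp

theorem S_norm (n : ℕ) (x : EuclideanSpace ℝ (Fin n)) : ‖S n x‖ ^ 2 = ‖x‖ ^ 2 := by
  rw [EuclideanSpace.norm_sq_eq, EuclideanSpace.norm_sq_eq]
  refine sum_congr rfl fun i _ => ?_
  rw [S_apply, norm_mul, mul_pow, Real.norm_eq_abs, sq_abs, sg_sq, one_mul]

theorem quad (n : ℕ) (x : EuclideanSpace ℝ (Fin n)) :
    inner ℝ x (T n x) = ∑ i, ∑ j, MR n i j * (x i * x j) := by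
  rw [PiLp.inner_apply]
  refine sum_congr rfl fun i _ => ?_
  simp only [T, Matrix.toLpLin_apply, RCLike.inner_apply, conj_trivial, Matrix.mulVec, dotProduct]
  rw [sum_mul]
  refine sum_congr rfl fun j _ => ?_
  ring

theorem coef (n : ℕ) (x : EuclideanSpace ℝ (Fin (n + 1))) (i j : Fin (n + 1)) :
    MR (n + 1) i j * (S (n + 1) x i * S (n + 1) x j) +
      MR (n + 1) i j * (x i * x j) = if i = 0 then (if j = 0 then 2 * x 0 ^ 2 else 0) else 0 := by
  rw [S_apply, S_apply]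
  by_cases h : ((i : ℕ) + 1 + ((j : ℕ) + 1)).Prime
  · have hM : MR (n + 1) i j = 1 := by simp [MR, M, h]
    rw [hM]
    by_cases h0 : i = 0 ∧ j = 0
    · obtain ⟨rfl, rfl⟩ := h0
      simp [sg]
      ring
    · have h1 : ¬ ((i : ℕ) = 0 ∧ (j : ℕ) = 0) := by
        rintro ⟨h1, h2⟩
        exact h0 ⟨Fin.ext h1, Fin.ext h2⟩
      have h2 : (if i = 0 then (if j = 0 then 2 * x 0 ^ 2 else 0) else 0) = 0 := by
        split_ifs with h3 h4
        · exact absurd ⟨h3, h4⟩ h0
        · rfl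
        · rfl
      rw [h2]
      have h3 : Odd ((i : ℕ) + 1 + ((j : ℕ) + 1)) := h.odd_of_ne_two (by omega)
      have h4 : sg i * sg j = -1 := by
        rw [sg, sg, ← pow_add]
        apply Odd.neg_one_pow
        rw [Nat.odd_iff] at h3 ⊢
        omega
      linear_combination x i * x j * h4
  · have hM : MR (n + 1) i j = 0 := by simp [MR, M, h]
    rw [hM]
    split_ifs with h3 h4
    · subst h3 h4
      exact absurd Nat.prime_two h
    · ring
    · ring

theorem key (n : ℕ) (x : EuclideanSpace ℝ (Fin (n + 1))) :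
    inner ℝ (S (n + 1) x) (T (n + 1) (S (n + 1) x)) + inner ℝ x (T (n + 1) x) = 2 * x 0 ^ 2 := by
  rw [quad, quad, ← sum_add_distrib]
  simp only [← sum_add_distrib, coef]
  simp

/-- few equations have a common solution -/
theorem exists_sol (n : ℕ) (ι : Type) [Fintype ι] (φ : ι → EuclideanSpace ℝ (Fin n) →ₗ[ℝ] ℝ)
    (h : Fintype.card ι < n) : ∃ x : EuclideanSpace ℝ (Fin n), x ≠ 0 ∧ ∀ i, φ i x = 0 := by
  have h1 : LinearMap.ker (LinearMap.pi φ) ≠ ⊥ := by
    apply LinearMap.ker_ne_bot_of_finrank_lt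
    rw [Module.finrank_fintype_fun_eq_card, fr]
    exact h
  obtain ⟨x, hx, hx0⟩ := (Submodule.ne_bot_iff _).1 h1
  refine ⟨x, hx0, fun i => ?_⟩
  have := congrFun (LinearMap.mem_ker.1 hx) i
  simpa using this

theorem card_lt (n k : ℕ) (hk : k ≤ n) : Fintype.card {i : Fin n // (i : ℕ) < k} = k := by
  rw [Fintype.card_subtype, Fin.card_filter_val_lt, min_eq_right hk]

theorem card_gt (n k : ℕ) (hk : k < n) : Fintype.card {i : Fin n // k < (i : ℕ)} = n - 1 - k := by
  have h1 : Fintype.card {i : Fin n // k < (i : ℕ)} = Fintype.card {i : Fin n // ¬ (i : ℕ) < k + 1} := by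
    apply Fintype.card_congr
    exact Equiv.subtypeEquivRight fun i => by omega
  rw [h1, Fintype.card_subtype_compl, card_lt n (k + 1) hk, Fintype.card_fin]
  omega

theorem first (n : ℕ) (k l : Fin (n + 1)) (hkl : (k : ℕ) + l = n) : 0 ≤ lam (n + 1) k + lam (n + 1) l := by
  obtain ⟨x, hx0, hx⟩ := exists_sol (n + 1) ({i : Fin (n + 1) // (i : ℕ) < k} ⊕ {i : Fin (n + 1) // (i : ℕ) < l})
    (Sum.elim (fun i => co (n + 1) i) (fun i => (co (n + 1) i).comp (S (n + 1)))) (by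
      rw [Fintype.card_sum, card_lt _ _ (by omega), card_lt _ _ (by omega)]
      omega)
  have h1 := upper (n + 1) k x fun i hi => hx (Sum.inl ⟨i, hi⟩)
  have h2 := upper (n + 1) l (S (n + 1) x) fun i hi => hx (Sum.inr ⟨i, hi⟩)
  rw [S_norm] at h2
  have h3 := key n x
  have h4 : 0 < ‖x‖ ^ 2 := by
    have := norm_pos_iff.2 hx0
    positivity
  have h5 : 0 ≤ (lam (n + 1) k + lam (n + 1) l) * ‖x‖ ^ 2 := by nlinarith [sq_nonneg (x 0)]
  by_contra hneg
  have := mul_neg_of_neg_of_pos (not_le.1 hneg) h4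
  linarith

theorem second (n : ℕ) (k l : Fin (n + 1)) (hkl : (k : ℕ) + l = n + 1) :
    lam (n + 1) k + lam (n + 1) l ≤ 0 := by
  obtain ⟨x, hx0, hx⟩ := exists_sol (n + 1)
    (({i : Fin (n + 1) // (k : ℕ) < i} ⊕ {i : Fin (n + 1) // (l : ℕ) < i}) ⊕ Unit)
    (Sum.elim (Sum.elim (fun i => co (n + 1) i) (fun i => (co (n + 1) i).comp (S (n + 1))))
      (fun _ => (EuclideanSpace.proj (𝕜 := ℝ) (0 : Fin (n + 1))).toLinearMap)) (by
      rw [Fintype.card_sum, Fintype.card_sum, card_gt _ _ (by omega), card_gt _ _ (by omega), Fintype.card_unit]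
      omega)
  have h1 := lower (n + 1) k x fun i hi => hx (Sum.inl (Sum.inl ⟨i, hi⟩))
  have h2 := lower (n + 1) l (S (n + 1) x) fun i hi => hx (Sum.inl (Sum.inr ⟨i, hi⟩))
  have h0 : x 0 = 0 := hx (Sum.inr ())
  rw [S_norm] at h2
  have h3 := key n x
  rw [h0] at h3
  have h4 : 0 < ‖x‖ ^ 2 := by
    have := norm_pos_iff.2 hx0
    positivity
  by_contra hneg
  have := mul_pos (not_le.1 hneg) h4
  nlinarith

end Pool.Agent.N785.AS
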