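import Pool.Agent.N785.AS.Basic

/-!
# The chain of the eigenvalues
-/

set_option autoImplicit false

namespace Pool.Agent.N785.AS

open Finset Polynomial

theorem charpoly_lam (n : ℕ) : (MR n).charpoly = ∏ i, (X - C (lam n i)) := by
  rw [← T_charpoly, (T_symm n).charpoly_eq (fr n)]
  rfl

theorem root_lam (n : ℕ) (t : ℝ) : (MR n).charpoly.IsRoot t ↔ ∃ i, lam n i = t := by
  rw [charpoly_lam, IsRoot.def, eval_prod, prod_eq_zero_iff]
  simp only [mem_univ, true_and, eval_sub, eval_X, eval_C, sub_eq_zero]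
  exact exists_congr fun i => eq_comm

/-- the positions -/
def pos (n : ℕ) (j : Fin n) : Fin n :=
  if h : (j : ℕ) % 2 = 0 then ⟨(j : ℕ) / 2, by omega⟩ else ⟨n - ((j : ℕ) + 1) / 2, by omega⟩

theorem pos_inj (n : ℕ) : Function.Injective (pos n) := by
  intro i j h
  have h1 := congrArg Fin.val h
  simp only [pos] at h1
  apply Fin.ext
  split_ifs at h1 with h2 h3 h3 <;> simp only at h1 <;> omega

/-- the enumeration -/
noncomputable def en (n : ℕ) (j : Fin n) : ℝ := lam n (pos n j)

theorem charpoly_en (n : ℕ) : (MR n).charpoly = ∏ i, (X - C (en n i)) := by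
  rw [charpoly_lam]
  exact ((Equiv.ofBijective (pos n) (Finite.injective_iff_bijective.1 (pos_inj n))).prod_comp
    fun i => X - C (lam n i)).symm

/-- one step of the chain -/
theorem step (n : ℕ) (i j : Fin (n + 1)) (h : (j : ℕ) = i + 1) :
    ∃ k l : Fin (n + 1), (-1 : ℝ) ^ (i : ℕ) * en (n + 1) i - (-1) ^ (j : ℕ) * en (n + 1) j =
      |lam (n + 1) k + lam (n + 1) l| := by
  refine ⟨pos (n + 1) i, pos (n + 1) j, ?_⟩
  have hi := i.2
  have hj := j.2
  rcases Nat.even_or_odd (i : ℕ) with he | ho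
  · have he' := he
    rw [Nat.even_iff] at he'
    have e1 : pos (n + 1) i = ⟨(i : ℕ) / 2, by omega⟩ := by
      rw [pos, dif_pos he']
    have e2 : pos (n + 1) j = ⟨n + 1 - ((j : ℕ) + 1) / 2, by omega⟩ := by
      rw [pos, dif_neg (by omega)]
    have h1 := first n (pos (n + 1) i) (pos (n + 1) j) (by
      rw [e1, e2]
      simp only
      omega)
    rw [abs_of_nonneg h1, he.neg_one_pow, h, pow_succ, he.neg_one_pow]
    unfold en
    ring
  · have ho' := ho
    rw [Nat.odd_iff] at ho'
    have e1 : pos (n + 1) i = ⟨n + 1 - ((i : ℕ) + 1) / 2, by omega⟩ := by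
      rw [pos, dif_neg (by omega)]
    have e2 : pos (n + 1) j = ⟨(j : ℕ) / 2, by omega⟩ := by
      rw [pos, dif_pos (by omega)]
    have h1 := second n (pos (n + 1) i) (pos (n + 1) j) (by
      rw [e1, e2]
      simp only
      omega)
    rw [abs_of_nonpos h1, ho.neg_one_pow, h, pow_succ, ho.neg_one_pow]
    unfold en
    ring

/-- the last element of the chain -/
theorem last (n : ℕ) (i : Fin (n + 1)) (h : (i : ℕ) = n) :
    ∃ k : Fin (n + 1), 2 * ((-1 : ℝ) ^ (i : ℕ) * en (n + 1) i) = |lam (n + 1) k + lam (n + 1) k| := by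
  refine ⟨pos (n + 1) i, ?_⟩
  rcases Nat.even_or_odd (i : ℕ) with he | ho
  · have he' := he
    rw [Nat.even_iff] at he'
    have e1 : pos (n + 1) i = ⟨(i : ℕ) / 2, by omega⟩ := by
      rw [pos, dif_pos he']
    have h1 := first n (pos (n + 1) i) (pos (n + 1) i) (by
      rw [e1]
      simp only
      omega)
    rw [abs_of_nonneg h1, he.neg_one_pow]
    unfold en
    ring
  · have ho' := ho
    rw [Nat.odd_iff] at ho'
    have e1 : pos (n + 1) i = ⟨n + 1 - ((i : ℕ) + 1) / 2, by omega⟩ := by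
      rw [pos, dif_neg (by omega)]
    have h1 := second n (pos (n + 1) i) (pos (n + 1) i) (by
      rw [e1]
      simp only
      omega)
    rw [abs_of_nonpos h1, ho.neg_one_pow]
    unfold en
    ring

/-- weak alternation -/
theorem weak (n : ℕ) : (∀ i j : Fin n, i ≤ j → (-1 : ℝ) ^ (j : ℕ) * en n j ≤ (-1) ^ (i : ℕ) * en n i) ∧
    ∀ i : Fin n, 0 ≤ (-1 : ℝ) ^ (i : ℕ) * en n i := by
  obtain _ | n := n
  · exact ⟨fun i => i.elim0, fun i => i.elim0⟩
  have h1 : ∀ i j : Fin (n + 1), i ≤ j →
      (-1 : ℝ) ^ (j : ℕ) * en (n + 1) j ≤ (-1) ^ (i : ℕ) * en (n + 1) i := by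
    intro i
    have : ∀ d : ℕ, ∀ j : Fin (n + 1), (j : ℕ) = i + d →
        (-1 : ℝ) ^ (j : ℕ) * en (n + 1) j ≤ (-1) ^ (i : ℕ) * en (n + 1) i := by
      intro d
      induction d with
      | zero =>
        intro j hj
        have : j = i := Fin.ext hj
        rw [this]
      | succ d ih =>
        intro j hj
        have h2 := ih ⟨i + d, by omega⟩ rfl
        obtain ⟨k, l, h3⟩ := step n ⟨i + d, by omega⟩ j (by simp only; omega)
        have := abs_nonneg (lam (n + 1) k + lam (n + 1) l)
        linarith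
    intro j hij
    exact this (j - i) j (by have : (i : ℕ) ≤ j := hij; omega)
  refine ⟨h1, fun i => ?_⟩
  obtain ⟨k, h3⟩ := last n (Fin.last n) rfl
  have := abs_nonneg (lam (n + 1) k + lam (n + 1) k)
  have h4 := h1 i (Fin.last n) (Fin.le_last i)
  linarith

/-- strict alternation, if there are no opposite eigenvalues -/
theorem strict (n : ℕ) (h : ∀ i j, lam n i + lam n j ≠ 0) :
    (∀ i j : Fin n, i < j → (-1 : ℝ) ^ (j : ℕ) * en n j < (-1) ^ (i : ℕ) * en n i) ∧
    ∀ i : Fin n, 0 < (-1 : ℝ) ^ (i : ℕ) * en n i := by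
  obtain _ | n := n
  · exact ⟨fun i => i.elim0, fun i => i.elim0⟩
  have hw := weak (n + 1)
  constructor
  · intro i j hij
    have hij' : (i : ℕ) < j := hij
    obtain ⟨k, l, h3⟩ := step n i ⟨i + 1, by omega⟩ rfl
    have h4 := abs_pos.2 (h k l)
    have h5 := hw.1 ⟨i + 1, by omega⟩ j (by
      rw [Fin.le_def]
      simp only
      omega)
    linarith
  · intro i
    obtain ⟨k, h3⟩ := last n (Fin.last n) rfl
    have := abs_pos.2 (h k k)
    have h4 := hw.1 i (Fin.last n) (Fin.le_last i)
    linarith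

/-- an irreducible characteristic polynomial has no opposite roots -/
theorem no_pair (n : ℕ) (h : Irreducible ((M n).map (Int.cast : ℤ → ℚ)).charpoly) (t : ℝ)
    (h1 : (MR n).charpoly.IsRoot t) (h2 : (MR n).charpoly.IsRoot (-t)) : False := by
  obtain _ | n := n
  · have : ((M 0).map (Int.cast : ℤ → ℚ)).charpoly = 1 := by simp [Matrix.charpoly]
    rw [this] at h
    exact not_irreducible_one h
  set f := ((M (n + 1)).map (Int.cast : ℤ → ℚ)).charpoly with hf
  have hmap : (MR (n + 1)).charpoly = f.map (algebraMap ℚ ℝ) := by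
    rw [hf, ← Matrix.charpoly_map]
    have : MR (n + 1) = ((M (n + 1)).map (Int.cast : ℤ → ℚ)).map (algebraMap ℚ ℝ) := by
      ext i j
      simp [MR]
    rw [this]
  have hmon : f.Monic := Matrix.charpoly_monic _
  have hdeg : f.natDegree = n + 1 := by
    rw [hf, Matrix.charpoly_natDegree_eq_dim, Fintype.card_fin]
  have a1 : aeval t f = 0 := by
    rw [hmap, IsRoot.def, eval_map_algebraMap] at h1
    exact h1
  have a2 : aeval t (f.comp (-X)) = 0 := by
    rw [hmap, IsRoot.def, eval_map_algebraMap] at h2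
    rw [aeval_comp]
    simpa using h2
  have hmin : f = minpoly ℚ t := minpoly.eq_of_irreducible_of_monic h a1 hmon
  have hdvd : f ∣ f.comp (-X) := by
    rw [hmin] at a2 ⊢
    exact minpoly.dvd ℚ t a2
  obtain ⟨g, hg⟩ := hdvd
  have hg0 : g ≠ 0 := by
    rintro rfl
    rw [mul_zero] at hg
    have := congrArg natDegree hg
    rw [natDegree_comp, natDegree_neg, natDegree_X, mul_one, hdeg, natDegree_zero] at this
    omega
  have hgd : g.natDegree = 0 := by
    have := congrArg natDegree hg
    rw [natDegree_comp, natDegree_neg, natDegree_X, mul_one, natDegree_mul hmon.ne_zero hg0] at this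
    omega
  obtain ⟨c, rfl⟩ := natDegree_eq_zero.1 hgd
  have c1 : ∀ k, (-1 : ℚ) ^ k * f.coeff k = f.coeff k * c := by
    intro k
    have := congrArg (fun p => coeff p k) hg
    simp only [coeff_mul_C] at this
    rw [← this]
    have e : f.comp (-X) = f.comp (C (-1) * X) := by simp
    rw [e, comp_C_mul_X_coeff]
    ring
  have c2 := c1 (n + 1)
  have c3 := c1 n
  have c4 : f.coeff (n + 1) = 1 := by
    rw [← hdeg]
    exact hmon
  rw [c4, mul_one, one_mul] at c2
  rw [← c2, pow_succ] at c3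
  have c5 : f.coeff n = 0 := by
    rcases Nat.even_or_odd n with he | ho
    · rw [he.neg_one_pow] at c3
      linarith
    · rw [ho.neg_one_pow] at c3
      linarith
  have c6 := Matrix.trace_eq_neg_charpoly_coeff ((M (n + 1)).map (Int.cast : ℤ → ℚ))
  rw [Fintype.card_fin, Nat.add_sub_cancel, ← hf, c5, neg_zero] at c6
  have c7 : ((M (n + 1)).map (Int.cast : ℤ → ℚ)).trace = 1 := by
    rw [Matrix.trace, Fin.sum_univ_succ]
    have : ∀ i : Fin n, Matrix.diag ((M (n + 1)).map (Int.cast : ℤ → ℚ)) i.succ = 0 := by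
      intro i
      simp only [Matrix.diag_apply, Matrix.map_apply, M]
      rw [if_neg]
      · simp
      · intro hp
        rw [Fin.val_succ] at hp
        have h3 : (i : ℕ) + 1 + 1 + ((i : ℕ) + 1 + 1) = 2 * (i + 2) := by ring
        rw [h3] at hp
        exact Nat.not_prime_mul (by omega) (by omega) hp
    rw [sum_congr rfl fun i _ => this i]
    have h0 : Matrix.diag ((M (n + 1)).map (Int.cast : ℤ → ℚ)) 0 = 1 := by
      simp only [Matrix.diag_apply, Matrix.map_apply, M]
      rw [if_pos (by exact Nat.prime_two)]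
      simp
    rw [h0]
    simp
  rw [c7] at c6
  exact one_ne_zero c6

end Pool.Agent.N785.AS
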